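import Pool.Agent.Helper95.LN.Stmts
import Pool.Agent.Helper74.PN.MGS

/-! # Row MGX (copy 2, helper12): the sum of the Morawetz functions, bounded error -/

set_option autoImplicit false

namespace Pool.Agent.Helper12.LN

open MeasureTheory Filter Pool.Agent.Helper95.PW Pool.Agent.Helper95.LN
open Pool.Agent.Helper95.PW.MGS74

theorem mgx_lap_zero (d : ℝ) (h : R3 → ℝ) (hh : ContDiff ℝ (⊤ : ℕ∞) h)
    (h0 : ∀ y, d ≤ nr y → h y = 0) (y : R3) (hy : d ≤ nr y) : lap h y = 0 := by
  unfold lap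
  apply Finset.sum_eq_zero
  intro i _
  exact pd_zero d i _ (pd_smooth i h hh) (fun z hz => pd_zero d i h hh h0 z hz) y hy

theorem mgx_mor (d s : ℝ) (y : R3) (hs : 0 < s) (hsd : s ≤ d) (hy : d ≤ nr y) :
    mor s y ≤ 15 / 2 * d * (1 / nr y ^ 4) := by
  have hd : 0 < d := lt_of_lt_of_le hs hsd
  have hr : 0 < nr y := lt_of_lt_of_le hd hy
  have h1 : nr y ^ 7 ≤ (nr y ^ 2 + s ^ 2) ^ (7 / 2 : ℝ) := by
    have h2 : (nr y ^ 2) ^ (7 / 2 : ℝ) = nr y ^ 7 := by
      rw [← Real.rpow_natCast (nr y) 2, ← Real.rpow_mul hr.le, ← Real.rpow_natCast (nr y) 7]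
      norm_num
    rw [← h2]
    apply Real.rpow_le_rpow (by positivity) (by nlinarith [sq_nonneg s]) (by norm_num)
  have h3 : nr y ^ 4 * d ^ 3 ≤ nr y ^ 7 := by
    have h4 : d ^ 3 ≤ nr y ^ 3 := pow_le_pow_left₀ hd.le hy 3
    calc nr y ^ 4 * d ^ 3 ≤ nr y ^ 4 * nr y ^ 3 := mul_le_mul_of_nonneg_left h4 (by positivity)
      _ = nr y ^ 7 := by ring
  have h5 : s ^ 4 ≤ d ^ 4 := pow_le_pow_left₀ hs.le hsd 4
  unfold mor
  calc 15 / 2 * s ^ 4 / (nr y ^ 2 + s ^ 2) ^ (7 / 2 : ℝ)
      ≤ 15 / 2 * d ^ 4 / (nr y ^ 4 * d ^ 3) := by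
        apply div_le_div₀ (by positivity) (by linarith) (by positivity) (h3.trans h1)
    _ = 15 / 2 * d * (1 / nr y ^ 4) := by
        field_simp

theorem MGX (h1 : ST_MGB) (h2 : ST_PK4) : ST_MGX := by
  intro d hd
  obtain ⟨A, hA, hF⟩ := h1 d hd
  obtain ⟨C, hC, hP⟩ := h2
  have hA0 : 0 ≤ A := by linarith
  refine ⟨1 + 2 * A / d + 15 / 2 * d * (C / d ^ 4), ?_, ?_⟩
  · have e1 : 0 ≤ 2 * A / d := by positivity
    have e2 : 0 ≤ 15 / 2 * d * (C / d ^ 4) := by positivity
    linarith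
  · intro M X s hX hs hsd y
    have hf := hF s hs hsd
    have e0 : mG X d s = fun y => ∑ j, mg d s (y - X j) := rfl
    have e3 : lap (mG X d s) = fun y => ∑ j, lap (mg d s) (y - X j) := by
      rw [e0]
      exact lap_sum X _ hf.sm
    have e4 : lap (lap (mG X d s)) = fun y => ∑ j, lap (lap (mg d s)) (y - X j) := by
      rw [e3]
      exact lap_sum X _ (lap_smooth _ hf.sm)
    have hz : ∀ z, d ≤ nr z → lap (lap (mg d s)) z = 0 := by
      intro z hz
      exact mgx_lap_zero d _ (lap_smooth _ hf.sm)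
        (fun w hw => mgx_lap_zero d _ hf.sm hf.out w hw) z hz
    have hterm : ∀ j, mor s (y - X j) ≤ -(1 / 2) * lap (lap (mg d s)) (y - X j) +
        (if nr (y - X j) < d then 2 * A / d else 0) +
        15 / 2 * d * (if d ≤ nr (y - X j) then 1 / nr (y - X j) ^ 4 else 0) := by
      intro j
      by_cases hj : nr (y - X j) < d
      · rw [if_pos hj, if_neg (not_le.2 hj)]
        have h3 := hf.bi (y - X j)
        have h4 : A * (if d / 2 ≤ nr (y - X j) then 1 / nr (y - X j) else 0) ≤ 2 * A / d := by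
          by_cases h5 : d / 2 ≤ nr (y - X j)
          · rw [if_pos h5]
            have h6 : 1 / nr (y - X j) ≤ 1 / (d / 2) :=
              one_div_le_one_div_of_le (by positivity) h5
            calc A * (1 / nr (y - X j)) ≤ A * (1 / (d / 2)) := mul_le_mul_of_nonneg_left h6 hA0
              _ = 2 * A / d := by field_simp
          · rw [if_neg h5, mul_zero]
            positivity
        linarith
      · rw [if_neg hj, if_pos (not_lt.1 hj), hz _ (not_lt.1 hj)]
        have h3 := mgx_mor d s (y - X j) hs hsd (not_lt.1 hj)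
        linarith
    have hnear : ∑ j, (if nr (y - X j) < d then 2 * A / d else 0) ≤ 2 * A / d := by
      refine one_term X d hd hX y (fun j => if nr (y - X j) < d then 2 * A / d else 0)
        (fun j hj => if_neg (not_lt.2 hj)) (fun t => t ≤ 2 * A / d) ?_ ?_
      · show (0 : ℝ) ≤ 2 * A / d
        positivity
      · intro j
        show (if nr (y - X j) < d then 2 * A / d else 0) ≤ 2 * A / d
        split_ifs
        · exact le_rfl
        · positivity
    have hfar : ∑ j, 15 / 2 * d * (if d ≤ nr (y - X j) then 1 / nr (y - X j) ^ 4 else 0) ≤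
        15 / 2 * d * (C / d ^ 4) := by
      rw [← Finset.mul_sum]
      exact mul_le_mul_of_nonneg_left (hP M X d y hd hX) (by positivity)
    have hsum := Finset.sum_le_sum (s := Finset.univ) fun j _ => hterm j
    rw [Finset.sum_add_distrib, Finset.sum_add_distrib, ← Finset.mul_sum] at hsum
    rw [e4]
    show ∑ j, mor s (y - X j) ≤ -(1 / 2) * (∑ j, lap (lap (mg d s)) (y - X j)) +
      (1 + 2 * A / d + 15 / 2 * d * (C / d ^ 4))
    linarith

end Pool.Agent.Helper12.LN
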